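import Pool.Agent.Helper822.KAM.Final

open Real Set MeasureTheory

namespace Pool.Agent.Results.MP_e55421_gt.TwoSourcesFail

/-- the unit vector making angle `θ` with the first axis -/
noncomputable def dir (θ : ℝ) : EuclideanSpace ℝ (Fin 2) := !₂[cos θ, sin θ]

/-- the chord function of `K` at `x`: the length of the intersection of `K` with the line through `x`
making angle `θ` with the first axis (Lebesgue measure in the arc length parameter `r`) -/
noncomputable def chord (K : Set (EuclideanSpace ℝ (Fin 2))) (x : EuclideanSpace ℝ (Fin 2)) (θ : ℝ) :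
    ENNReal := volume {r : ℝ | x + r • dir θ ∈ K}

/-- convex body: compact convex set with nonempty interior -/
def IsBody (K : Set (EuclideanSpace ℝ (Fin 2))) : Prop :=
  IsCompact K ∧ Convex ℝ K ∧ (interior K).Nonempty

/-- the set of points `P` determines convex bodies -/
def Determines (P : Set (EuclideanSpace ℝ (Fin 2))) : Prop :=
  ∀ K L, IsBody K → IsBody L → (∀ x ∈ P, ∀ θ ∈ Ico 0 π, chord K x θ = chord L x θ) → K = L

/-- every set of `k` distinct points, no three of them collinear, determines convex bodies -/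
def Works (k : ℕ) : Prop :=
  ∀ P : Finset (EuclideanSpace ℝ (Fin 2)), P.card = k →
    (∀ x ∈ P, ∀ y ∈ P, ∀ z ∈ P, x ≠ y → y ≠ z → x ≠ z → ¬ Collinear ℝ {x, y, z}) →
    Determines (P : Set (EuclideanSpace ℝ (Fin 2)))

theorem Determines.mono {P Q : Set (EuclideanSpace ℝ (Fin 2))} (h : Determines P) (hPQ : P ⊆ Q) :
    Determines Q := fun K L hK hL hKL => h K L hK hL fun x hx => hKL x (hPQ hx)

/-- no pair of points determines convex bodies -/
theorem no_pair (x y : EuclideanSpace ℝ (Fin 2)) (hxy : x ≠ y) : ¬ Determines {x, y} :=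
  Pool.Agent.Helper822.KAM.all_pairs x y hxy

/-- No two points determine convex bodies; hence every `k` that works is at least `3`. -/
theorem result :
    (∀ x y : EuclideanSpace ℝ (Fin 2), x ≠ y → ∃ K L : Set (EuclideanSpace ℝ (Fin 2)),
      IsBody K ∧ IsBody L ∧ K ≠ L ∧
      (∀ θ ∈ Ico 0 π, chord K x θ = chord L x θ) ∧ (∀ θ ∈ Ico 0 π, chord K y θ = chord L y θ)) ∧
    (∀ k : ℕ, Works k → 3 ≤ k) := by
  constructor
  · intro x y hxy
    have h := no_pair x y hxy
    unfold Determines at h
    push Not at h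
    obtain ⟨K, L, hK, hL, hKL, hne⟩ := h
    exact ⟨K, L, hK, hL, hne, hKL x (by simp), hKL y (by simp)⟩
  · intro k hk
    by_contra hlt
    have hk2 : k ≤ 2 := by omega
    have hne : (!₂[(0 : ℝ), 0] : EuclideanSpace ℝ (Fin 2)) ≠ !₂[(1 : ℝ), 0] := by
      intro h
      have := congrArg (fun v : EuclideanSpace ℝ (Fin 2) => v 0) h
      simp at this
    classical
    obtain ⟨P, hP, hPk⟩ := Finset.exists_subset_card_eq
      (s := ({!₂[(0 : ℝ), 0], !₂[(1 : ℝ), 0]} : Finset (EuclideanSpace ℝ (Fin 2)))) (n := k)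
      (by rw [Finset.card_pair hne]; exact hk2)
    have hcol : ∀ x ∈ P, ∀ y ∈ P, ∀ z ∈ P, x ≠ y → y ≠ z → x ≠ z → ¬ Collinear ℝ {x, y, z} := by
      intro x hx y hy z hz hxy hyz hxz
      exfalso
      have h3 : ({x, y, z} : Finset (EuclideanSpace ℝ (Fin 2))).card = 3 :=
        Finset.card_eq_three.2 ⟨x, y, z, hxy, hxz, hyz, rfl⟩
      have hsub : ({x, y, z} : Finset (EuclideanSpace ℝ (Fin 2))) ⊆ P := by
        intro w hw
        simp only [Finset.mem_insert, Finset.mem_singleton] at hw
        rcases hw with rfl | rfl | rfl <;> assumption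
      have := Finset.card_le_card hsub
      omega
    refine no_pair _ _ hne ((hk P hPk hcol).mono ?_)
    intro w hw
    have := hP (Finset.mem_coe.1 hw)
    simpa using this

end Pool.Agent.Results.MP_e55421_gt.TwoSourcesFail
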